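import Pool.Agent.MP_b7033c_al.Three.Stm

set_option autoImplicit false

namespace Pool.Agent.MP_b7033c_al.Three

namespace YoshA

open Finset MulAction

section cocycle

variable {P Q A : Type} [Group P] [MulAction P Q] [CommGroup A] {f : P → Q → A}

theorem perm {U : Subgroup P} {O : Finset Q} (hO : ∀ y ∈ U, ∀ w ∈ O, y • w ∈ O) {y : P}
    (hy : y ∈ U) (φ : Q → A) : ∏ w ∈ O, φ (y • w) = ∏ w ∈ O, φ w :=
  prod_nbij' (y • ·) (y⁻¹ • ·) (hO y hy) (hO _ (U.inv_mem hy)) (fun _ _ => inv_smul_smul _ _)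
    (fun _ _ => smul_inv_smul _ _) fun _ _ => rfl

/-- a cocycle that is trivial on the stabilisers is a coboundary -/
theorem cob (hf : ∀ y z w, f (y * z) w = f y (z • w) * f z w) {U : Subgroup P} {O : Finset Q}
    (hO : ∀ y ∈ U, ∀ w ∈ O, y • w ∈ O) (h : ∀ s ∈ U, ∀ w ∈ O, s • w = w → f s w = 1) {y : P}
    (hy : y ∈ U) : ∏ w ∈ O, f y w = 1 := by
  have : ∀ w : Q, ∃ z : U, z • (Quotient.mk (orbitRel U Q) w).out = w := fun w =>
    (orbitRel U Q).symm (Quotient.mk_out (s := orbitRel U Q) w)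
  choose z hz using this
  have key : ∀ w ∈ O, f y w * f (z w) (Quotient.mk (orbitRel U Q) w).out =
      f (z (y • w)) (Quotient.mk (orbitRel U Q) (y • w)).out := fun w hw => by
    have e : Quotient.mk (orbitRel U Q) (y • w) = Quotient.mk (orbitRel U Q) w :=
      Quotient.sound ⟨⟨y, hy⟩, rfl⟩
    have h1 := hz w
    have h2 := hz (y • w)
    rw [e] at h2 ⊢
    generalize (Quotient.mk (orbitRel U Q) w).out = ρ at *
    rw [Subgroup.smul_def] at h1 h2
    have h3 : (((z (y • w) : P))⁻¹ * (y * z w)) • ρ = ρ := by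
      rw [mul_smul, mul_smul, h1, inv_smul_eq_iff, h2]
    have h4 : ρ ∈ O := by
      rw [← inv_smul_smul (z w : P) ρ, h1]
      exact hO _ (U.inv_mem (z w).2) _ hw
    have h5 := hf (z (y • w)) (((z (y • w) : P))⁻¹ * (y * z w)) ρ
    rwa [h3, h _ (U.mul_mem (U.inv_mem (z _).2) (U.mul_mem hy (z _).2)) _ h4 h3, mul_one,
      mul_inv_cancel_left, hf, h1] at h5
  have h6 := prod_congr rfl key
  rw [prod_mul_distrib,
    perm hO hy fun w => f (z w) (Quotient.mk (orbitRel U Q) w).out] at h6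
  exact mul_eq_right.1 h6

/-- the product of a cocycle over an invariant set -/
def tr (hf : ∀ y z w, f (y * z) w = f y (z • w) * f z w) (U : Subgroup P) (O : Finset Q)
    (hO : ∀ y ∈ U, ∀ w ∈ O, y • w ∈ O) : U →* A :=
  MonoidHom.mk' (fun y => ∏ w ∈ O, f y w) fun y z => by
    simp only [Subgroup.coe_mul, hf, prod_mul_distrib]
    rw [perm hO z.2 (f y)]

theorem binom {r : ℕ} (hr : r.Prime) (b : ℕ → ℕ → A) (h1 : ∀ i j, b (i + 1) j = b i j * b i (j + 1))
    (h2 : ∀ j, b 0 j ^ r = 1) (h3 : b 0 (r - 1) = 1) : ∏ i ∈ range r, b i 0 = 1 := by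
  have e : ∀ j, (fwdDiff 1)^[j + 1] (fun m => Additive.ofMul (∏ i ∈ range m, b i 0)) =
      fun i => Additive.ofMul (b i j) := fun j => by
    induction j with
    | zero =>
      ext m
      simp [fwdDiff, prod_range_succ]
    | succ j ih =>
      rw [Function.iterate_succ_apply', ih]
      ext m
      simp [fwdDiff, h1]
  have h := shift_eq_sum_fwdDiff_iter 1 (fun m => Additive.ofMul (∏ i ∈ range m, b i 0)) r 0
  rw [sum_range_succ', sum_eq_zero] at h
  · exact ofMul_eq_zero.1 (by simpa using h)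
  · intro k hk
    rw [e]
    rcases (Nat.succ_le_of_lt (mem_range.1 hk)).lt_or_eq with hk | hk
    · obtain ⟨c, hc⟩ := hr.dvd_choose_self k.succ_ne_zero hk
      rw [hc, ← ofMul_pow, pow_mul, h2, one_pow, ofMul_one]
    · rw [show k = r - 1 by omega]
      simp [h3]

theorem orb [Finite P] [Fintype Q] {r : ℕ} [hr : Fact r.Prime] (hP : IsPGroup r P)
    (hf : ∀ y z w, f (y * z) w = f y (z • w) * f z w) (he : ∀ y w, f y w ^ r = 1)
    (hn : ∀ u x : P, (fun y => y⁻¹ * (u⁻¹ * y * u))^[r - 1] x = 1) {x : P} {w₀ : Q}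
    (hx : x • w₀ = w₀) (h0 : stabilizer P w₀ ≠ ⊤) (O : Finset Q)
    (hO : ∀ w, w ∈ O ↔ w ∈ orbit P w₀) : ∏ w ∈ O, f x w = 1 := by
  classical
  obtain ⟨a, ha⟩ := hP.exists_card_eq
  obtain ⟨c, hc⟩ := (hP.to_subgroup (stabilizer P w₀)).exists_card_eq
  have hlt : c < a := by
    rw [← pow_lt_pow_iff_right₀ hr.out.one_lt, ← ha, ← hc]
    exact (Subgroup.card_le_card_group _).lt_of_ne fun e => h0 (Subgroup.eq_top_of_card_eq _ e)
  obtain ⟨a, rfl⟩ := Nat.exists_eq_succ_of_ne_zero (Nat.ne_zero_of_lt hlt)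
  obtain ⟨T, hT, hS⟩ := Sylow.exists_subgroup_card_pow_prime_le r (m := a)
    (ha ▸ pow_dvd_pow r a.le_succ) _ hc (Nat.le_of_lt_succ hlt)
  have hi : T.index = r := by
    have := T.card_mul_index
    rw [hT, ha, pow_succ] at this
    exact Nat.eq_of_mul_eq_mul_left (pow_pos hr.out.pos a) this
  have hN : T.Normal := Subgroup.normal_of_index_eq_minFac_card (by
    rw [hi, ha, hr.out.pow_minFac a.succ_ne_zero])
  obtain ⟨u, hu⟩ : ∃ u, u ∉ T := by
    by_contra h
    push Not at h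
    exact hr.out.ne_one (hi ▸ Subgroup.index_eq_one.2 ((Subgroup.eq_top_iff' T).2 h))
  have hu1 : (u : P ⧸ T) ≠ 1 := fun e => hu ((QuotientGroup.eq_one_iff u).1 e)
  have hz := zpowers_eq_top_of_prime_card (G := P ⧸ T) hi hu1
  have ho : orderOf (u : P ⧸ T) = r := by
    rw [← Nat.card_zpowers, hz, Subgroup.card_top]
    exact hi
  have hI : ∀ y ∈ T, ∀ w ∈ univ.filter (· ∈ orbit T w₀), y • w ∈ univ.filter (· ∈ orbit T w₀) := by
    simp only [mem_filter, mem_univ, true_and]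
    rintro y hy _ ⟨t, rfl⟩
    exact ⟨⟨y, hy⟩ * t, mul_smul _ _ _⟩
  have hc' : ∀ (i : ℕ) y, y ∈ T → (u ^ i)⁻¹ * y * u ^ i ∈ T := fun i y hy => hN.conj_mem' y hy _
  have hd : ∀ j, (fun y => y⁻¹ * (u⁻¹ * y * u))^[j] x ∈ T := fun j => by
    induction j with
    | zero => exact hS hx
    | succ j ih =>
      rw [Function.iterate_succ_apply']
      exact T.mul_mem (T.inv_mem ih) (hN.conj_mem' _ ih _)
  have hb := binom hr.out (fun i j => tr hf T _ hI ⟨_, hc' i _ (hd j)⟩)
    (fun i j => by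
      rw [← map_mul]
      congr 1
      ext
      simp only [Function.iterate_succ_apply', Subgroup.coe_mul, pow_succ']
      group)
    (fun j => by
      show (∏ w ∈ _, _) ^ r = 1
      rw [← prod_pow]
      exact prod_eq_one fun _ _ => he _ _)
    (by simp only [hn, mul_one, inv_mul_cancel]; exact map_one _)
  rw [← hb]
  have h1 : ∀ i ∈ range r, tr hf T _ hI ⟨_, hc' i _ (hd 0)⟩ =
      ∏ w ∈ univ.filter (· ∈ orbit T w₀), f x (u ^ i • w) := fun i _ => by
    have h2 : ∀ w ∈ univ.filter (· ∈ orbit T w₀), f x (u ^ i • w) * f (u ^ i) w =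
        f (u ^ i) (((u ^ i)⁻¹ * x * u ^ i) • w) * f ((u ^ i)⁻¹ * x * u ^ i) w := fun w _ => by
      rw [← hf, ← hf, mul_assoc, mul_inv_cancel_left]
    have h3 := prod_congr rfl h2
    rw [prod_mul_distrib, prod_mul_distrib, perm hI (hc' i _ (hS hx)) (f (u ^ i)), mul_comm] at h3
    exact (mul_left_cancel h3).symm
  rw [prod_congr rfl h1, ← prod_product']
  refine (prod_nbij (fun q : ℕ × Q => u ^ q.1 • q.2) ?_ ?_ ?_ fun _ _ => rfl).symm
  · simp only [mem_product, mem_filter, mem_univ, true_and, hO]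
    rintro ⟨i, _⟩ ⟨-, t, rfl⟩
    exact ⟨u ^ i * t, mul_smul _ _ _⟩
  · rintro ⟨i, w⟩ h2 ⟨j, w'⟩ h3 (e : u ^ i • w = u ^ j • w')
    simp only [coe_product, coe_filter, mem_univ, true_and, Set.mem_prod, mem_coe, mem_range,
      Set.mem_ofPred_eq] at h2 h3
    obtain ⟨hi', t, rfl⟩ := h2
    obtain ⟨hj', t', rfl⟩ := h3
    have h4 : (u ^ j * t')⁻¹ * (u ^ i * t) ∈ T := hS (by
      rw [mem_stabilizer_iff, mul_smul, inv_smul_eq_iff, mul_smul, mul_smul]
      exact e)
    rw [← QuotientGroup.eq, QuotientGroup.mk_mul_of_mem _ t.2, QuotientGroup.mk_mul_of_mem _ t'.2,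
      QuotientGroup.mk_pow, QuotientGroup.mk_pow] at h4
    obtain rfl : j = i := pow_injOn_Iio_orderOf (ho ▸ hj') (ho ▸ hi') h4
    rw [smul_left_cancel_iff] at e
    rw [e]
  · intro w hw
    obtain ⟨g, rfl⟩ := (hO w).1 hw
    have h2 : (g : P ⧸ T) ∈ Subgroup.zpowers (u : P ⧸ T) := hz ▸ Subgroup.mem_top _
    rw [mem_zpowers_iff_mem_range_orderOf, ho, mem_image] at h2
    obtain ⟨i, h3, h4⟩ := h2
    rw [← QuotientGroup.mk_pow, QuotientGroup.eq] at h4
    refine ⟨(i, ((u ^ i)⁻¹ * g) • w₀), ?_, by simp [mul_smul]⟩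
    simp only [coe_product, coe_filter, mem_univ, true_and, Set.mem_prod, mem_coe,
      Set.mem_ofPred_eq]
    exact ⟨h3, ⟨_, h4⟩, rfl⟩

open Classical in
theorem main [Finite P] [Fintype Q] {r : ℕ} [Fact r.Prime] (hP : IsPGroup r P)
    (hf : ∀ y z w, f (y * z) w = f y (z • w) * f z w) (he : ∀ y w, f y w ^ r = 1)
    (hn : ∀ u x : P, (fun y => y⁻¹ * (u⁻¹ * y * u))^[r - 1] x = 1) {x : P}
    (hx : ∀ s ∈ Subgroup.zpowers x, ∀ w, s • w = w → x • w ≠ w → f s w = 1) :
    ∏ w ∈ univ.filter (· ∉ fixedPoints P Q), f x w = 1 := by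
  rw [← prod_fiberwise _ (Quotient.mk (orbitRel P Q))]
  refine prod_eq_one fun q _ => ?_
  have hI : ∀ (y : P) (w : Q), w ∉ fixedPoints P Q → y • w ∉ fixedPoints P Q := fun y w h h' =>
    h (by rwa [← inv_smul_smul y w, h' y⁻¹])
  have hq : ∀ (y : P) (w : Q), Quotient.mk (orbitRel P Q) (y • w) = Quotient.mk _ w := fun y w =>
    Quotient.sound ⟨y, rfl⟩
  by_cases h : ∃ w, (w ∉ fixedPoints P Q ∧ Quotient.mk (orbitRel P Q) w = q) ∧ x • w = w
  · obtain ⟨w, ⟨h1, rfl⟩, h2⟩ := h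
    refine orb hP hf he hn h2 (fun e => h1 fun y => (e ▸ Subgroup.mem_top y : y ∈ stabilizer P w))
      _ fun v => ?_
    simp only [mem_filter, mem_univ, true_and]
    exact ⟨fun a => Quotient.exact a.2, by
      rintro ⟨y, rfl⟩
      exact ⟨hI y w h1, hq y w⟩⟩
  · refine cob hf (U := Subgroup.zpowers x) ?_ ?_ (Subgroup.mem_zpowers x)
    · simp only [mem_filter, mem_univ, true_and]
      exact fun y _ w a => ⟨hI y w a.1, (hq y w).trans a.2⟩
    · simp only [mem_filter, mem_univ, true_and]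
      exact fun s hs w a b => hx s hs w b fun c => h ⟨w, a, c⟩

end cocycle

/-- a character of exponent `r` that is invariant under the normaliser -/
theorem char {K : Type} [Group K] [Finite K] {r : ℕ} [Fact r.Prime] {R : Subgroup K}
    (hR : IsPGroup r R) (h0 : R ≠ ⊥) (hN : Group.IsNilpotent (Subgroup.normalizer (R : Set K))) :
    ∃ (A : Type) (_ : CommGroup A) (l : R →* A), (∀ x, l x ^ r = 1) ∧ (∃ x, l x ≠ 1) ∧
      ∀ g ∈ Subgroup.normalizer (R : Set K), ∀ x y : R, (y : K) = g⁻¹ * x * g → l y = l x := by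
  classical
  set N := Subgroup.normalizer (R : Set K)
  have hle : R ≤ N := Subgroup.le_normalizer
  have hn : (R.subgroupOf N).Normal := Subgroup.normal_in_normalizer
  let φ : R →* N ⧸ ⁅R.subgroupOf N, ⊤⁆ := (QuotientGroup.mk' _).comp (Subgroup.inclusion hle)
  have hc : ∀ x, φ x ∈ Subgroup.center (N ⧸ ⁅R.subgroupOf N, ⊤⁆) := fun x => by
    rw [Subgroup.mem_center_iff]
    intro g
    obtain ⟨g, rfl⟩ := QuotientGroup.mk_surjective g
    rw [eq_comm, ← commutatorElement_eq_one_iff_mul_comm]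
    exact (map_commutatorElement (QuotientGroup.mk' _) (Subgroup.inclusion hle x) g).symm.trans
      ((QuotientGroup.eq_one_iff _).2 (Subgroup.commutator_mem_commutator x.2 (Subgroup.mem_top g)))
  have hex : ∃ k, ∀ x, φ x ^ r ^ k = 1 := by
    obtain ⟨k, hk⟩ := hR.exists_card_eq
    exact ⟨k, fun x => by rw [← map_pow, ← hk, pow_card_eq_one', map_one]⟩
  have hk0 : Nat.find hex ≠ 0 := fun e => by
    have h1 := Nat.find_spec hex
    rw [e] at h1
    have h2 : R.subgroupOf N ≤ ⁅R.subgroupOf N, ⊤⁆ := fun y hy =>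
      (QuotientGroup.eq_one_iff _).1 ((pow_one _).symm.trans (h1 ⟨y, hy⟩))
    obtain ⟨n, h3⟩ := Subgroup.nilpotent_iff_lowerCentralSeries.1 hN
    have h4 : ∀ k, R.subgroupOf N ≤ (⊤ : Subgroup N).lowerCentralSeries k := fun k => by
      induction k with
      | zero => exact le_top
      | succ k ih => exact h2.trans (Subgroup.commutator_mono ih le_rfl)
    refine h0 (eq_bot_iff.2 fun y hy => ?_)
    have h5 : (⟨y, hle hy⟩ : N) ∈ (⊥ : Subgroup N) := h3 ▸ h4 n hy
    exact congrArg Subtype.val (Subgroup.mem_bot.1 h5)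
  obtain ⟨k, hk⟩ := Nat.exists_eq_succ_of_ne_zero hk0
  refine ⟨Subgroup.center (N ⧸ ⁅R.subgroupOf N, ⊤⁆), { (Subgroup.center _).toGroup with
      mul_comm := fun a b => Subtype.ext (Subgroup.mem_center_iff.1 b.2 a) },
    MonoidHom.mk' (fun x => φ.codRestrict _ hc x ^ r ^ k) fun a b =>
      (congrArg (· ^ r ^ k) (map_mul _ a b)).trans (Commute.mul_pow
        (Subtype.ext (Subgroup.mem_center_iff.1 (hc b) (φ a))) _),
    fun x => Subtype.ext ?_, ?_,
    fun g hg x y e => Subtype.ext ?_⟩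
  · have := Nat.find_spec hex x
    rwa [hk, pow_succ, pow_mul] at this
  · by_contra h
    push Not at h
    exact Nat.find_min hex (hk ▸ k.lt_succ_self) fun x => congrArg Subtype.val (h x)
  · have h1 : φ y = (QuotientGroup.mk' _ (⟨g, hg⟩ : N))⁻¹ * φ x * QuotientGroup.mk' _ ⟨g, hg⟩ :=
      congrArg (QuotientGroup.mk' ⁅R.subgroupOf N, ⊤⁆)
        (Subtype.ext e : Subgroup.inclusion hle y = ⟨g, hg⟩⁻¹ * Subgroup.inclusion hle x * ⟨g, hg⟩)
    show φ y ^ r ^ k = φ x ^ r ^ k
    rw [h1, mul_assoc, ← Subgroup.mem_center_iff.1 (hc x), inv_mul_cancel_left]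

end YoshA

open YoshA Finset MulAction in
theorem yosh : Yosh := by
  intro K _ _ r hr R n hn h0 hc hN htop
  classical
  obtain ⟨A, _, l, l1, l2, l3⟩ := char R.2 h0 hN
  have := Fintype.ofFinite (K ⧸ (R : Subgroup K))
  have hm : ∀ (y : K) (w : K ⧸ (R : Subgroup K)), (y • w).out⁻¹ * (y * w.out) ∈ (R : Subgroup K) :=
    fun y w => QuotientGroup.eq.1 (by
      rw [QuotientGroup.out_eq', ← smul_eq_mul, Quotient.coe_smul_out])
  have hF : ∀ (y z : K) (w : K ⧸ (R : Subgroup K)), l ⟨_, hm (y * z) w⟩ =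
      l ⟨_, hm y (z • w)⟩ * l ⟨_, hm z w⟩ := fun y z w => by
    rw [← map_mul]
    congr 1
    ext
    simp only [Subgroup.coe_mul, mul_smul]
    group
  let V : K →* A := MonoidHom.mk' (fun y => ∏ w, l ⟨_, hm y w⟩) fun y z => by
    simp only [hF, prod_mul_distrib]
    rw [perm (U := ⊤) (fun _ _ _ _ => mem_univ _) (Subgroup.mem_top z) fun w => l ⟨_, hm y w⟩]
  obtain ⟨x, hx, hmin⟩ := (measure fun x : (R : Subgroup K) => orderOf x).wf.has_min {x | l x ≠ 1} l2
  have hV : V x = 1 := Abelianization.commutator_subset_ker V (htop ▸ Subgroup.mem_top _)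
  have h1 := main (P := (R : Subgroup K)) (f := fun y w => l ⟨_, hm y w⟩) (x := x) R.2
    (fun y z w => hF y z w) (fun _ _ => l1 _)
    (fun u y => by
      have : ∀ j, (((fun y => y⁻¹ * (u⁻¹ * y * u))^[j] y : (R : Subgroup K)) : K) ∈
          (R : Subgroup K).lowerCentralSeries j := fun j => by
        induction j with
        | zero => exact y.2
        | succ j ih =>
          rw [Function.iterate_succ_apply']
          have := Subgroup.commutator_mem_commutator (Subgroup.inv_mem _ ih) (u⁻¹).2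
          simpa [commutatorElement_def, mul_assoc] using this
      exact Subtype.ext (Subgroup.mem_bot.1 (hc ▸ Subgroup.lowerCentralSeries_antitone _
        (Nat.le_sub_one_of_lt hn) (this (r - 1)))))
    (fun s hs w a b => by
      by_contra c
      refine hmin _ c ((Nat.le_of_dvd (orderOf_pos x) ?_).lt_of_ne ?_)
      all_goals
        have e : orderOf (⟨_, hm s w⟩ : (R : Subgroup K)) = orderOf s := by
          rw [← Subgroup.orderOf_coe, ← Subgroup.orderOf_coe s,
            ← (MulAut.conj w.out⁻¹).orderOf_eq (s : K)]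
          simp only [MulAut.conj_apply, inv_inv, mul_assoc]
          rw [show (s : K) • w = w from a]
        simp only [e]
      · exact orderOf_dvd_of_mem_zpowers hs
      · intro d
        have d1 : Subgroup.zpowers s = Subgroup.zpowers x :=
          Subgroup.eq_of_le_of_card_ge ((Subgroup.zpowers_le).2 hs)
            (by rw [Nat.card_zpowers, Nat.card_zpowers, d])
        exact b ((Subgroup.zpowers_le (H := stabilizer _ w)).2 a (d1 ▸ Subgroup.mem_zpowers x)))
  have h2 : ∏ w ∈ univ.filter (· ∈ fixedPoints (R : Subgroup K) (K ⧸ (R : Subgroup K))),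
      l ⟨_, hm x w⟩ = l x ^ Nat.card (fixedPoints (R : Subgroup K) (K ⧸ (R : Subgroup K))) := by
    rw [Nat.card_eq_fintype_card, Fintype.card_subtype, ← prod_const]
    refine prod_congr rfl fun w hw => l3 w.out ?_ _ _ ?_
    · rw [← Sylow.mem_fixedPoints_mul_left_cosets_iff_mem_normalizer, QuotientGroup.out_eq']
      exact (mem_filter.1 hw).2
    · show ((x : K) • w).out⁻¹ * (x * w.out) = _
      rw [show (x : K) • w = w from (mem_filter.1 hw).2 x, mul_assoc]
  have h3 := prod_filter_mul_prod_filter_not univ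
    (· ∈ fixedPoints (R : Subgroup K) (K ⧸ (R : Subgroup K))) fun w => l ⟨_, hm x w⟩
  rw [h1, h2, mul_one] at h3
  refine hx ((pow_eq_one_iff_of_coprime (hr.out.coprime_iff_not_dvd.2 fun d => ?_)).1
    ⟨l1 x, h3.trans hV⟩)
  exact R.not_dvd_index (((R.2.card_modEq_card_fixedPoints _).dvd_iff dvd_rfl).2 d)

end Pool.Agent.MP_b7033c_al.Three
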