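import Pool.Agent.MP_b7033c_al.Three.Trick
import Pool.Agent.MP_b7033c_al.Three.Core
import Pool.Agent.MP_b7033c_al.Three.Gr
import Pool.Agent.MP_b7033c_al.Three.Ext
import Pool.Agent.MP_b7033c_al.Three.Yosh
import Pool.Agent.MP_b7033c_al.Three.NormId
import Pool.Agent.MP_b7033c_al.Three.Tho

set_option autoImplicit false

namespace Pool.Agent.MP_b7033c_al.Three

open scoped Nat
open SumA TrA

/-- Elements `x` of `F` with all `⟨x, c, d⟩` finite centralise a term of the lower central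
series of `F`. -/
theorem final (p : ℕ) (hp : p.Prime) : ∃ b : ℕ, 2 ≤ b ∧ ∀ (G : Type) [Group G] (F : Subgroup G)
    [F.Normal] (a : G), a ∉ F → (∀ c, c ∉ F → c ^ p = 1) → (∀ y ∈ F, Big b y) →
    (∀ y ∈ F, Finite (Subgroup.closure {a, y * a})) → ∀ x ∈ F,
    (∀ c d, c ∉ F → d ∉ F → Finite (Subgroup.closure {x, c, d})) →
    ∀ y ∈ F.lowerCentralSeries b, Commute x y := by
  obtain ⟨h0, hG⟩ := graded p hp
  have HC := core p h0 hp (lieH_of_graded p h0 hp hG)
  generalize h0 + 1 = h at HC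
  have HG := gh p h HC
  have h2 := hp.two_le
  have h3 : h + 3 ≤ 2 ^ (h + 2) + p * (h + 3) :=
    (Nat.le_mul_of_pos_left _ hp.pos).trans (Nat.le_add_left _ _)
  have h4 : p * (h + 1 + 1) ≤ 2 ^ (h + 2) + p * (h + 3) :=
    (Nat.mul_le_mul_left _ (by omega)).trans (Nat.le_add_left _ _)
  have h5 : 2 ^ (h + 1) ≤ 2 ^ (h + 2) + p * (h + 3) :=
    (Nat.pow_le_pow_right two_pos (by omega)).trans (Nat.le_add_right _ _)
  have h6 : p ≤ 2 ^ (h + 2) + p * (h + 3) :=
    (Nat.le_mul_of_pos_right _ (by omega)).trans (Nat.le_add_left _ _)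
  generalize 2 ^ (h + 2) + p * (h + 3) = b at *
  have HF := finH hp (by omega) HG (tho yosh normId p (h + 1) b hp (by omega) HG)
  refine ⟨b, by omega, fun G _ F hF a ha hc hbig hfin x hx hx3 y hy => ?_⟩
  have hout : ∀ c, c ∉ F → ∀ y ∈ F, y * c ∉ F := fun c h1 y hy h =>
    h1 (by simpa using F.mul_mem (F.inv_mem hy) h)
  refine trick ha hp (by omega) HC HF hc hbig hfin ⟨hx, fun c h1 z hz => ?_⟩ y
    (F.lowerCentralSeries_antitone (by omega) hy)
  let L := Subgroup.closure ({x, c, z * c} : Set G)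
  have : Finite L := hx3 c _ h1 (hout c h1 z hz)
  have hf : Finite (L ⊓ F : Subgroup G) :=
    Finite.of_injective _ (Subgroup.inclusion_injective inf_le_left)
  have hcL : c ∈ L := Subgroup.subset_closure (by simp)
  have hcc : ∀ w ∈ L ⊓ F, c * w * c⁻¹ ∈ L ⊓ F := fun w hw =>
    ⟨L.mul_mem (L.mul_mem hcL hw.1) (L.inv_mem hcL), hF.conj_mem w hw.2 c⟩
  refine ⟨L ⊓ F, ⟨hf, HF G _ c hf (fun w hw => hbig w hw.2) hcc
    (fun w hw => hc _ (hout c h1 w hw.2)),
    cop_mono (card_cop _ fun w hw => hbig w hw.2) (by omega)⟩, inf_le_right,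
    ⟨Subgroup.subset_closure (by simp), hx⟩, ⟨?_, hz⟩, hcc⟩
  simpa using L.mul_mem (Subgroup.subset_closure (by simp) : z * c ∈ L) (L.inv_mem hcL)

end Pool.Agent.MP_b7033c_al.Three
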