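import Pool.Agent.MP_b7033c_al.Three.Mod

set_option autoImplicit false

namespace Pool.Agent.MP_b7033c_al.Three.TrA

open scoped Nat
open SumA

variable {G : Type} [Group G] {F : Subgroup G} {n : ℕ}

/-- `x` lies, with any `y` of `F`, in a good subgroup normalised by any given `c` outside `F`. -/
def Xp (F : Subgroup G) (n : ℕ) (x : G) : Prop :=
  x ∈ F ∧ ∀ c, c ∉ F → ∀ y ∈ F, ∃ K : Subgroup G, Good n K ∧ K ≤ F ∧ x ∈ K ∧ y ∈ K ∧
    ∀ z ∈ K, c * z * c⁻¹ ∈ K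

lemma Xp.conj [hF : F.Normal] {x : G} (h : Xp F n x) (g : G) : Xp F n (g * x * g⁻¹) := by
  refine ⟨hF.conj_mem x h.1 g, fun c hc y hy => ?_⟩
  obtain ⟨K, h1, h2, h3, h4, h5⟩ := h.2 (g⁻¹ * c * g)
    (fun h => hc (by simpa [mul_assoc] using hF.conj_mem _ h g)) (g⁻¹ * y * g)
    (by simpa using hF.conj_mem y hy g⁻¹)
  refine ⟨K.map (MulAut.conj g).toMonoidHom, h1.map _, ?_, ⟨x, h3, rfl⟩,
    ⟨_, h4, by simp [mul_assoc]⟩, ?_⟩
  · rintro _ ⟨z, hz, rfl⟩; exact hF.conj_mem z (h2 hz) g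
  · rintro _ ⟨z, hz, rfl⟩; exact ⟨_, h5 z hz, by simp [mul_assoc]⟩

lemma cl_one (K : Subgroup G) : cl K 1 = 1 := by simpa using cl_pow K.one_mem 0

lemma cl_inv {K : Subgroup G} {x : G} (hx : x ∈ K) : cl K x⁻¹ = (cl K x)⁻¹ := by
  rw [cl_eq hx, cl_eq (K.inv_mem hx), ← map_inv]
  exact congrArg _ (Subtype.ext (funext fun k => inv_pow x _))

lemma add_inv_add {K : Subgroup G} (h : Good n K) {x y : G} (hx : x ∈ K) (hy : y ∈ K) :
    add x⁻¹ (add x y) = y := by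
  have h1 := (add_spec h hx hy).1
  refine cl_inj h (add_spec h (K.inv_mem hx) h1).1 hy ?_
  rw [cl_add h (K.inv_mem hx) h1, cl_add h hx hy, cl_inv hx, inv_mul_cancel_left]

lemma add_conj {K : Subgroup G} (h : Good n K) {x y : G} (hx : x ∈ K) (hy : y ∈ K) (g : G) :
    add (g * x * g⁻¹) (g * y * g⁻¹) = g * add x y * g⁻¹ := add_map h hx hy (MulAut.conj g)

lemma Xp.pair {a : G} (ha : a ∉ F) {x : G} (h : Xp F n x) (y : F) :
    ∃ K : Subgroup G, Good n K ∧ K ≤ F ∧ x ∈ K ∧ y.1 ∈ K := by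
  obtain ⟨K, h1, h2, h3, h4, -⟩ := h.2 a ha y y.2
  exact ⟨K, h1, h2, h3, h4⟩

/-- The translation by `x`. -/
noncomputable def T {a : G} (ha : a ∉ F) {x : G} (h : Xp F n x) : Equiv.Perm F where
  toFun y := ⟨add x y, by
    obtain ⟨K, h1, h2, h3, h4⟩ := h.pair ha y
    exact h2 (add_spec h1 h3 h4).1⟩
  invFun y := ⟨add x⁻¹ y, by
    obtain ⟨K, h1, h2, h3, h4⟩ := h.pair ha y
    exact h2 (add_spec h1 (K.inv_mem h3) h4).1⟩
  left_inv y := by
    obtain ⟨K, h1, h2, h3, h4⟩ := h.pair ha y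
    exact Subtype.ext (add_inv_add h1 h3 h4)
  right_inv y := by
    obtain ⟨K, h1, h2, h3, h4⟩ := h.pair ha y
    exact Subtype.ext (by simpa using add_inv_add h1 (K.inv_mem h3) h4)

/-- Conjugation on `F`. -/
def gam (F : Subgroup G) [F.Normal] : G →* Equiv.Perm F :=
  (MulAut.toPerm F).comp MulAut.conjNormal

variable [hF : F.Normal] {a : G} (ha : a ∉ F)

omit hF in
lemma T_apply {x : G} (h : Xp F n x) (y : F) : (T ha h y : G) = add x y := rfl

lemma gam_apply (g : G) (y : F) : (gam F g y : G) = g * y * g⁻¹ := rfl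

omit hF in
lemma T_congr {x y : G} (hx : Xp F n x) (hy : Xp F n y) (h : x = y) : T ha hx = T ha hy := by
  subst h; rfl

lemma gam_T {x : G} (h : Xp F n x) (g : G) :
    gam F g * T ha h * (gam F g)⁻¹ = T ha (h.conj g) := by
  rw [mul_inv_eq_iff_eq_mul]
  ext y
  obtain ⟨K, h1, h2, h3, h4⟩ := h.pair ha y
  exact (add_conj h1 h3 h4 g).symm

lemma T_cross {x c : G} (h : Xp F n x) (hc : c ∉ F) : Commute (T ha h) (T ha (h.conj c)) := by
  ext y
  obtain ⟨K, h1, h2, h3, h4, h5⟩ := h.2 c hc y y.2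
  have h6 := h5 x h3
  have h7 := (add_spec h1 h6 h4).1
  have h8 := (add_spec h1 h3 h4).1
  show add x (add (c * x * c⁻¹) y) = add (c * x * c⁻¹) (add x y)
  refine cl_inj h1 (add_spec h1 h3 h7).1 (add_spec h1 h6 h8).1 ?_
  rw [cl_add h1 h3 h7, cl_add h1 h6 h8, cl_add h1 h6 h4, cl_add h1 h3 h4, mul_left_comm]

omit hF in
lemma T_pow {x : G} (h : Xp F n x) {k : ℕ} (hk : x ^ k = 1) : T ha h ^ k = 1 := by
  ext y
  obtain ⟨K, h1, h2, h3, h4⟩ := h.pair ha y
  have : ∀ j : ℕ, ((T ha h ^ j) y : G) ∈ K ∧ cl K ((T ha h ^ j) y) = cl K x ^ j * cl K y := by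
    intro j
    induction j with
    | zero => exact ⟨h4, by simp⟩
    | succ j ih =>
      rw [pow_succ', Equiv.Perm.mul_apply, T_apply]
      exact ⟨(add_spec h1 h3 ih.1).1, by rw [cl_add h1 h3 ih.1, ih.2, pow_succ', mul_assoc]⟩
  show _ = y.1
  refine cl_inj h1 (this k).1 h4 ?_
  rw [(this k).2, ← cl_pow h3, hk, cl_one, one_mul]

lemma T_split {p : ℕ} {x c : G} (h : Xp F n x) (hc : c ∉ F) (hp : c ^ p = 1)
    (hf : ∀ y ∈ F, c * y * c⁻¹ = y → y = 1) : (T ha h * gam F c) ^ p = 1 := by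
  ext y
  obtain ⟨K, h1, h2, h3, h4, h5⟩ := h.2 c hc y y.2
  set τ := T ha h * gam F c with hτ
  have hτa : ∀ z : F, (τ z : G) = add x (c * z * c⁻¹) := fun _ => rfl
  have hτK : ∀ z : F, z.1 ∈ K → (τ z : G) ∈ K := fun z hz => (add_spec h1 h3 (h5 _ hz)).1
  have key : ∀ k : ℕ, ∃ s, ∀ z : F, z.1 ∈ K → ((τ ^ k) z : G) ∈ K ∧
      cl K ((τ ^ k) z) = s * cl K (c ^ k * z * (c ^ k)⁻¹) := by
    intro k
    induction k with
    | zero => exact ⟨1, fun z hz => ⟨hz, by simp⟩⟩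
    | succ k ih =>
      obtain ⟨s, hs⟩ := ih
      refine ⟨s * cl K (c ^ k * x * (c ^ k)⁻¹), fun z hz => ?_⟩
      rw [pow_succ, Equiv.Perm.mul_apply]
      refine ⟨(hs _ (hτK z hz)).1, ?_⟩
      rw [(hs _ (hτK z hz)).2, hτa, ← add_conj h1 h3 (h5 _ hz),
        cl_add h1 (ModA.conj_pow_mem h5 k _ h3) (ModA.conj_pow_mem h5 k _ (h5 _ hz)),
        ← mul_assoc s, show c ^ k * (c * z * c⁻¹) * (c ^ k)⁻¹ = c ^ (k + 1) * z * (c ^ (k + 1))⁻¹ by
          rw [pow_succ]; group]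
  obtain ⟨s, hs⟩ := key p
  simp only [hp, one_mul, inv_one, mul_one] at hs
  have hu := hs 1 K.one_mem
  have e1 : τ ((τ ^ p) 1) = (τ ^ p) (τ 1) := by
    rw [← Equiv.Perm.mul_apply, ← Equiv.Perm.mul_apply, ← pow_succ, ← pow_succ']
  have e2 := (hs _ (hτK 1 K.one_mem)).2
  rw [← e1, hτa, hτa, OneMemClass.coe_one, cl_add h1 h3 (h5 _ hu.1),
    cl_add h1 h3 (h5 _ K.one_mem), mul_left_comm, mul_right_inj, mul_one, mul_inv_cancel] at e2
  have e3 := hf _ (h2 hu.1) (cl_inj h1 (h5 _ hu.1) hu.1 (e2.trans hu.2.symm))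
  have e4 := hu.2
  rw [e3, OneMemClass.coe_one, cl_one, mul_one] at e4
  show _ = y.1
  refine cl_inj h1 (hs y h4).1 h4 ?_
  rw [(hs y h4).2, ← e4, one_mul]

lemma T_comm {p : ℕ} (hp : p.Prime) (hc : ∀ c, c ∉ F → c ^ p = 1)
    (hf : ∀ y ∈ F, a * y * a⁻¹ = y → y = 1) {x : G} (h : Xp F n x) (g : G) :
    Commute (T ha h) (T ha (h.conj g)) := by
  by_cases hg : g ∈ F
  swap
  · exact T_cross ha h hg
  have hpow : ∀ k : ℕ, 0 < k → k < p → a ^ k * g ∉ F := by
    intro k h1 h2 h3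
    have h4 : a ^ k ∈ F := by simpa using F.mul_mem h3 (F.inv_mem hg)
    obtain ⟨j, -, hj⟩ := Nat.exists_mul_mod_eq_one_of_coprime
      ((Nat.coprime_of_lt_prime h1.ne' h2 hp).symm) hp.one_lt
    have h5 := F.pow_mem h4 j
    rw [← pow_mul, ← Nat.div_add_mod (k * j) p, hj, pow_succ, pow_mul, hc a ha, one_pow,
      one_mul] at h5
    exact ha h5
  have key : ∀ k : ℕ, k < p → ∃ t, Commute (T ha h) t ∧
      (T ha (h.conj g) * gam F a) ^ (k + 1) = T ha (h.conj g) * t * gam F (a ^ (k + 1)) := by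
    intro k
    induction k with
    | zero => exact fun _ => ⟨1, Commute.one_right _, by simp⟩
    | succ k ih =>
      intro hk
      obtain ⟨t, ht, e⟩ := ih (by omega)
      refine ⟨t * T ha (h.conj (a ^ (k + 1) * g)),
        ht.mul_right (T_cross ha h (hpow _ k.succ_pos hk)), ?_⟩
      rw [pow_succ, e, T_congr ha (h.conj (a ^ (k + 1) * g)) ((h.conj g).conj (a ^ (k + 1)))
        (by group), ← gam_T ha (h.conj g) (a ^ (k + 1)), pow_succ a (k + 1), map_mul]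
      group
  obtain ⟨t, ht, e⟩ := key (p - 1) (by have := hp.pos; omega)
  rw [Nat.sub_add_cancel hp.pos, T_split ha (h.conj g) ha (hc a ha) hf, hc a ha, map_one,
    mul_one] at e
  rw [eq_inv_of_mul_eq_one_left e.symm]
  exact ht.inv_right

include ha in
/-- The main step. -/
theorem trick {p h B : ℕ} (hp : p.Prime) (hB : p * (n + 1) ≤ B) (HC : Core p h) (HF : FinH p n B)
    (hc : ∀ c, c ∉ F → c ^ p = 1) (hb : ∀ y ∈ F, Big B y)
    (hfin : ∀ y ∈ F, Finite (Subgroup.closure {a, y * a})) {x : G} (hx : Xp F n x) :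
    ∀ y ∈ F.lowerCentralSeries h, Commute x y := by
  have hpB : p ≤ B := le_trans (by nlinarith) hB
  have hf : ∀ c, c ∉ F → ∀ y ∈ F, c * y * c⁻¹ = y → y = 1 := fun c h1 y hy =>
    (hb y hy).fpf hp hpB (hc c h1)
      (hc _ fun h => h1 (by simpa using F.mul_mem (F.inv_mem hy) h))
  let Y : Set (Equiv.Perm F) := Set.range fun g => T ha (hx.conj g)
  have hY : ∀ u ∈ Y, ∀ v ∈ Y, Commute u v := by
    rintro _ ⟨g, rfl⟩ _ ⟨g', rfl⟩
    have := T_comm ha hp hc (hf a ha) (hx.conj g) (g' * g⁻¹)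
    rwa [T_congr ha ((hx.conj g).conj (g' * g⁻¹)) (hx.conj g') (by group)] at this
  have hM : ∀ u ∈ Subgroup.closure Y, ∀ v ∈ Subgroup.closure Y, Commute u v := by
    intro u hu v hv
    have := Subgroup.closure_le_centralizer_centralizer Y hu v
      (((Subgroup.closure_le (Subgroup.centralizer Y)).2 fun w hw z hz => hY z hz w hw) hv)
    exact this.symm
  have hγ : ∀ g, ∀ μ ∈ Subgroup.closure Y, gam F g * μ * (gam F g)⁻¹ ∈ Subgroup.closure Y := by
    intro g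
    have : Subgroup.closure Y ≤
        (Subgroup.closure Y).comap (MulAut.conj (gam F g)).toMonoidHom := by
      rw [Subgroup.closure_le]
      rintro _ ⟨g', rfl⟩
      exact Subgroup.subset_closure ⟨g * g',
        (T_congr ha _ _ (by group)).trans (gam_T ha (hx.conj g') g).symm⟩
    exact this
  obtain ⟨m, hm, hxm⟩ := hb x hx.1
  intro y hy
  have key := modul hB (hp.two_le.trans hpB) HC HF F a ha hc hb hfin (gam F) _ hM hγ m hm (by
      intro μ hμ
      induction hμ using Subgroup.closure_induction with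
      | mem u hu =>
        obtain ⟨g, rfl⟩ := hu
        exact T_pow ha _ (by rw [conj_pow, hxm, mul_one, mul_inv_cancel])
      | one => exact one_pow m
      | mul u v hu hv h1 h2 => rw [(hM u hu v hv).mul_pow, h1, h2, one_mul]
      | inv u _ h1 => rw [inv_pow, h1, inv_one])
    (fun c h1 => ModA.split_closure rfl hM (hγ c) (by rw [← map_pow, hc c h1, map_one]) (by
      rintro _ ⟨g, rfl⟩; exact T_split ha _ h1 (hc c h1) (hf c h1))) y hy (T ha hx)
    (Subgroup.subset_closure ⟨1, T_congr ha _ _ (by group)⟩)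
  rw [gam_T] at key
  have one : ∀ {z : G} (hz : Xp F n z), (T ha hz 1 : G) = z := by
    intro z hz
    obtain ⟨K, h1, h2, h3, h4⟩ := hz.pair ha 1
    refine cl_inj h1 (add_spec h1 h3 h4).1 h3 ?_
    rw [cl_add h1 h3 h4, OneMemClass.coe_one, cl_one, mul_one]
  have := one (hx.conj y)
  rw [key, one, eq_mul_inv_iff_mul_eq] at this
  exact this

end Pool.Agent.MP_b7033c_al.Three.TrA
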